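import Pool.Agent.Helper70.KN.Goals4

/-!
# Project KN, packet FBF: Fubini, cylinder form, for functions
-/

set_option autoImplicit false

open MeasureTheory Set Function

namespace Pool.Agent.Helper15.KN.FBF

open Pool.Agent.Helper70.KN

theorem t : S_FBF := by
  intro N f i hf
  have hA : MeasurableSet {x : Fin N → ℝ | 0 ≤ x i ∧ x i < 1} :=
    (measurableSet_le measurable_const (measurable_pi_apply i)).inter
      (measurableSet_lt (measurable_pi_apply i) measurable_const)
  have hgm : Measurable fun x : Fin N → ℝ => ∫⁻ t : ℝ, f (update x i t) := by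
    have h1 := hf.lmarginal (μ := fun _ : Fin N => (volume : Measure ℝ)) (s := {i})
    rw [lmarginal_singleton] at h1
    exact h1
  rw [← lintegral_indicator hA]
  rw [volume_pi]
  rw [lintegral_eq_lmarginal_univ (0 : Fin N → ℝ), lintegral_eq_lmarginal_univ (0 : Fin N → ℝ),
    lmarginal_erase' _ hf (Finset.mem_univ i), lmarginal_erase' _ (hgm.indicator hA)
      (Finset.mem_univ i)]
  congr 1
  funext x
  have h2 : ∀ t : ℝ, ({x : Fin N → ℝ | 0 ≤ x i ∧ x i < 1}.indicator
      (fun x => ∫⁻ t : ℝ, f (update x i t))) (update x i t) =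
      (Ico (0 : ℝ) 1).indicator (fun _ => ∫⁻ t : ℝ, f (update x i t)) t := by
    intro t
    by_cases ht : t ∈ Ico (0 : ℝ) 1
    · rw [indicator_of_mem ht, indicator_of_mem (by simpa using ht)]
      simp only [update_idem]
    · rw [indicator_of_notMem ht, indicator_of_notMem (by simpa using ht)]
  simp only [h2]
  rw [lintegral_indicator measurableSet_Ico, lintegral_const, Measure.restrict_apply_univ,
    Real.volume_Ico, sub_zero, ENNReal.ofReal_one, mul_one]

end Pool.Agent.Helper15.KN.FBF
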