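import Pool.Agent.Helper70.KN.Goals4

/-!
# Project KN, packet NU4: numbers for N = 5
-/

set_option autoImplicit false

namespace Pool.Agent.Helper15.KN.NU4

open Pool.Agent.Helper70.KN

theorem t (hKP : S_KP) : S_NU4 := by
  obtain ⟨k0, k1, k2⟩ := hKP 5 (by norm_num)
  refine ⟨29 / 20, 5 / 9, by norm_num, fun σ hσ => ?_, by norm_num, by norm_num⟩
  rcases hσ.eq_or_lt with h | h
  · rw [← h, k0]
    norm_num
  rcases le_total σ 2 with h2 | h2
  · rw [k1 σ h h2, le_div_iff₀ h]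
    obtain ⟨u, hu⟩ : ∃ u : ℝ, u = 1 - σ / 2 := ⟨_, rfl⟩
    have hs : σ = 2 * (1 - u) := by linarith
    have hu0 : 0 ≤ u := by linarith
    have hu1 : 0 ≤ 1 - u := by linarith
    have hp : 0 ≤ u ^ 4 / 2 + u ^ 3 / 2 + u ^ 2 / 2 - 11 / 18 * u + 29 / 180 := by
      nlinarith [sq_nonneg (u - 1 / 3), sq_nonneg (u ^ 2 - 1 / 9),
        mul_nonneg hu0 (sq_nonneg (u - 1 / 3))]
    rw [← hu, hs]
    nlinarith [mul_nonneg hu1 hp]
  · rw [k2 σ h2, le_div_iff₀ h]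
    nlinarith [sq_nonneg (σ - 4 / 3)]

end Pool.Agent.Helper15.KN.NU4
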